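import Pool.Agent.EVF.StmtsH

/-!
# Squad EVF, row DE2: lower bound for a Gram determinant over an integral matrix, with weights
-/

namespace Pool.Agent.EVF.H10

open Matrix
open scoped ComplexOrder

/-- independent rows -/
theorem de2_rows {n L : ℕ} (B : Fin L → Fin n → ℤ)
    (h : ∀ a : Fin n → ℤ, (∀ ι, ∑ j, a j * B ι j = 0) → a = 0) :
    ∃ f : Fin n → Fin L, Function.Injective f ∧
      (Matrix.of fun i => B (f i) : Matrix (Fin n) (Fin n) ℤ).det ≠ 0 := by
  have h0 : ((Matrix.of B)ᵀ * Matrix.of B : Matrix (Fin n) (Fin n) ℤ).det ≠ 0 := by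
    intro h0
    obtain ⟨v, hv, hv0⟩ := Matrix.exists_mulVec_eq_zero_iff.mpr h0
    apply hv
    apply h
    have h1 : (Matrix.of B *ᵥ v) ⬝ᵥ (Matrix.of B *ᵥ v) = 0 := by
      have h2 : v ⬝ᵥ (((Matrix.of B)ᵀ * Matrix.of B) *ᵥ v) = 0 := by rw [hv0, dotProduct_zero]
      rw [← Matrix.mulVec_mulVec, Matrix.mulVec_transpose, dotProduct_comm,
        ← Matrix.dotProduct_mulVec] at h2
      exact h2
    have h3 : Matrix.of B *ᵥ v = 0 := dotProduct_self_eq_zero.mp h1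
    intro ι
    have h4 := congrFun h3 ι
    simp only [Matrix.mulVec, dotProduct, Matrix.of_apply, Pi.zero_apply] at h4
    rw [← h4]
    exact Finset.sum_congr rfl fun j _ => mul_comm _ _
  have h1 : ((Matrix.of B)ᵀ * Matrix.of B : Matrix (Fin n) (Fin n) ℤ) =
      Matrix.of fun i => ∑ ι, B ι i • B ι := by
    ext i j
    rw [Matrix.mul_apply, Matrix.of_apply, Finset.sum_apply]
    rfl
  rw [h1] at h0
  have h2 : (Matrix.of fun i => ∑ ι, B ι i • B ι : Matrix (Fin n) (Fin n) ℤ).det =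
      ∑ f : Fin n → Fin L, (∏ i, B (f i) i) •
        (Matrix.of fun i => B (f i) : Matrix (Fin n) (Fin n) ℤ).det := by
    have h3 := (Matrix.detRowAlternating (n := Fin n) (R := ℤ)).toMultilinearMap.map_sum
      (fun (i : Fin n) (ι : Fin L) => B ι i • B ι)
    refine h3.trans (Finset.sum_congr rfl fun f _ => ?_)
    exact MultilinearMap.map_smul_univ _ _ _
  rw [h2] at h0
  obtain ⟨f, -, hf⟩ := Finset.exists_ne_zero_of_sum_ne_zero h0
  have hf1 := right_ne_zero_of_smul hf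
  refine ⟨f, ?_, hf1⟩
  intro i j hij
  by_contra hne
  apply hf1
  refine Matrix.det_zero_of_row_eq hne ?_
  funext k
  show B (f i) k = B (f j) k
  rw [hij]

/-- comparison of determinants -/
theorem de2_compare {n : ℕ} (G T : Matrix (Fin n) (Fin n) ℂ) (hG : G.IsHermitian)
    (p : ℝ) (hp : (Tᴴ * T).det = (p : ℂ)) (hp0 : 0 < p) (c : ℝ) (hc : 0 ≤ c)
    (h : ∀ v : Fin n → ℂ, c * (star (T *ᵥ v) ⬝ᵥ (T *ᵥ v)).re ≤ (star v ⬝ᵥ (G *ᵥ v)).re) :
    c ^ n * p ≤ G.det.re := by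
  have hdT : (Tᴴ).det * T.det = (p : ℂ) := by
    rw [← Matrix.det_mul, hp]
  have hT0 : T.det ≠ 0 := by
    intro h0
    rw [h0, mul_zero] at hdT
    have : p = 0 := by exact_mod_cast hdT.symm
    linarith
  have hu : IsUnit T.det := hT0.isUnit
  set S := T⁻¹ with hS
  have hTS : T * S = 1 := Matrix.mul_nonsing_inv T hu
  have hherm : (Sᴴ * G * S).IsHermitian := Matrix.isHermitian_conjTranspose_mul_mul S hG
  have h1 : ∀ w : Fin n → ℂ, c * ∑ i, ‖w i‖ ^ 2 ≤ (star w ⬝ᵥ ((Sᴴ * G * S) *ᵥ w)).re := by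
    intro w
    have h2 := h (S *ᵥ w)
    have h3 : star (S *ᵥ w) ⬝ᵥ (G *ᵥ (S *ᵥ w)) = star w ⬝ᵥ ((Sᴴ * G * S) *ᵥ w) := by
      rw [← Matrix.mulVec_mulVec, ← Matrix.mulVec_mulVec, Matrix.star_mulVec,
        ← Matrix.dotProduct_mulVec]
    have h4 : T *ᵥ (S *ᵥ w) = w := by
      rw [Matrix.mulVec_mulVec, hTS, Matrix.one_mulVec]
    rw [h3, h4] at h2
    refine le_trans (le_of_eq ?_) h2
    congr 1
    simp only [dotProduct, Complex.re_sum, Pi.star_apply]
    apply Finset.sum_congr rfl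
    intro i _
    have h5 := Complex.mul_conj (w i)
    rw [Complex.normSq_eq_norm_sq, mul_comm] at h5
    have h6 : star (w i) = (starRingEnd ℂ) (w i) := rfl
    rw [h6, h5, Complex.ofReal_re]
  have h7 := Helper90Frey.det_lower _ hherm c hc h1
  rw [Fintype.card_fin] at h7
  have h8 : (Sᴴ * G * S).det * (p : ℂ) = G.det := by
    rw [← hdT]
    calc (Sᴴ * G * S).det * (Tᴴ.det * T.det) = (Tᴴ.det * Sᴴ.det) * G.det * (T.det * S.det) := by
          rw [Matrix.det_mul, Matrix.det_mul]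
          ring
      _ = G.det := by
          rw [← Matrix.det_mul T S, hTS]
          rw [mul_comm (Tᴴ.det), ← Matrix.det_mul, ← Matrix.conjTranspose_mul, hTS]
          simp
  have h9 : (Sᴴ * G * S).det.re * p = G.det.re := by
    rw [← h8]
    simp
  rw [← h9]
  exact mul_le_mul_of_nonneg_right h7 hp0.le

/-- DE2 -/
theorem de2 : De2Stmt := by
  intro n L G B w K hK hw hG hB h
  obtain ⟨f, hf, hdet⟩ := de2_rows B hB
  set M : Matrix (Fin n) (Fin n) ℤ := Matrix.of fun i => B (f i) with hM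
  have hdet1 : (1 : ℝ) ≤ ((M.det : ℤ) : ℝ) ^ 2 := by
    have h1 : 1 ≤ M.det ^ 2 := by
      have h2 : 0 < M.det ^ 2 := by positivity
      omega
    exact_mod_cast h1
  have hnL : n ≤ L := by
    have h1 := Fintype.card_le_of_injective f hf
    rwa [Fintype.card_fin, Fintype.card_fin] at h1
  let T : Matrix (Fin n) (Fin n) ℂ :=
    Matrix.diagonal (fun i => ((Real.sqrt (w (f i)) : ℝ) : ℂ)) * M.map (Int.castRingHom ℂ)
  have hTdet : T.det = (((∏ i, Real.sqrt (w (f i))) * ((M.det : ℤ) : ℝ) : ℝ) : ℂ) := by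
    show (Matrix.diagonal _ * M.map (Int.castRingHom ℂ)).det = _
    rw [Matrix.det_mul, Matrix.det_diagonal]
    have h1 : (M.map (Int.castRingHom ℂ)).det = ((M.det : ℤ) : ℂ) :=
      (RingHom.map_det (Int.castRingHom ℂ) M).symm
    rw [h1, Complex.ofReal_mul, Complex.ofReal_prod, Complex.ofReal_intCast]
  set p : ℝ := (∏ i, w (f i)) * ((M.det : ℤ) : ℝ) ^ 2 with hp
  have hprod : 0 < ∏ i, w (f i) := Finset.prod_pos fun i _ => hw _
  have hp0 : 0 < p := by positivity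
  have hp1 : ∏ i, w (f i) ≤ p := by
    rw [hp]
    exact le_mul_of_one_le_right hprod.le hdet1
  have hTT : (Tᴴ * T).det = (p : ℂ) := by
    rw [Matrix.det_mul, Matrix.det_conjTranspose, hTdet]
    have h1 : star ((((∏ i, Real.sqrt (w (f i))) * ((M.det : ℤ) : ℝ) : ℝ) : ℂ)) =
        (((∏ i, Real.sqrt (w (f i))) * ((M.det : ℤ) : ℝ) : ℝ) : ℂ) := Complex.conj_ofReal _
    rw [h1, ← Complex.ofReal_mul]
    congr 1
    have h2 : (∏ i, Real.sqrt (w (f i))) * (∏ i, Real.sqrt (w (f i))) = ∏ i, w (f i) := by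
      rw [← Finset.prod_mul_distrib]
      exact Finset.prod_congr rfl fun i _ => Real.mul_self_sqrt (hw _).le
    rw [hp, ← h2]
    ring
  have hTv : ∀ (v : Fin n → ℂ) (i : Fin n), ‖(T *ᵥ v) i‖ ^ 2 =
      ‖∑ j, star (v j) * ((B (f i) j : ℤ) : ℂ)‖ ^ 2 * w (f i) := by
    intro v i
    have h1 : (T *ᵥ v) i = ((Real.sqrt (w (f i)) : ℝ) : ℂ) *
        star (∑ j, star (v j) * ((B (f i) j : ℤ) : ℂ)) := by
      show ((Matrix.diagonal _ * M.map (Int.castRingHom ℂ)) *ᵥ v) i = _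
      rw [← Matrix.mulVec_mulVec, Matrix.mulVec_diagonal, star_sum]
      congr 1
      simp only [Matrix.mulVec, dotProduct]
      apply Finset.sum_congr rfl
      intro j _
      rw [star_mul', star_star]
      have h3 : star ((B (f i) j : ℤ) : ℂ) = ((B (f i) j : ℤ) : ℂ) := by simp
      rw [h3, mul_comm]
      rfl
    rw [h1, norm_mul, norm_star, mul_pow, Complex.norm_real, Real.norm_eq_abs, sq_abs,
      Real.sq_sqrt (hw _).le, mul_comm]
  have hTf : ∀ v : Fin n → ℂ, star (T *ᵥ v) ⬝ᵥ (T *ᵥ v) = ((∑ i, ‖(T *ᵥ v) i‖ ^ 2 : ℝ) : ℂ) := by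
    intro v
    push_cast
    simp only [dotProduct, Pi.star_apply]
    refine Finset.sum_congr rfl fun i _ => ?_
    have h4 := Complex.mul_conj ((T *ᵥ v) i)
    rw [Complex.normSq_eq_norm_sq, mul_comm] at h4
    have h6 : star ((T *ᵥ v) i) = (starRingEnd ℂ) ((T *ᵥ v) i) := rfl
    rw [h6, h4]
    push_cast
    rfl
  set D : ℝ := K * (L + 1) with hD
  have hD0 : 0 < D := by positivity
  have hnn : ∀ v : Fin n → ℂ, n ≠ 0 → 0 ≤ (star v ⬝ᵥ (G *ᵥ v)).re := by
    intro v hn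
    have h1 := h v (f ⟨0, Nat.pos_of_ne_zero hn⟩)
    have h3 := hw (f ⟨0, Nat.pos_of_ne_zero hn⟩)
    have h2 : 0 ≤ K * (star v ⬝ᵥ (G *ᵥ v)).re := le_trans (by positivity) h1
    exact nonneg_of_mul_nonneg_right h2 hK
  have hcmp : ∀ v : Fin n → ℂ, D⁻¹ * (star (T *ᵥ v) ⬝ᵥ (T *ᵥ v)).re ≤
      (star v ⬝ᵥ (G *ᵥ v)).re := by
    intro v
    rw [hTf, Complex.ofReal_re, inv_mul_le_iff₀ hD0]
    rcases Nat.eq_zero_or_pos n with h0 | h0
    · subst h0
      simp [dotProduct]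
    · have h1 := hnn v h0.ne'
      calc ∑ i, ‖(T *ᵥ v) i‖ ^ 2
          ≤ ∑ _i : Fin n, K * (star v ⬝ᵥ (G *ᵥ v)).re := by
            refine Finset.sum_le_sum fun i _ => ?_
            rw [hTv]
            exact h v (f i)
        _ = n * (K * (star v ⬝ᵥ (G *ᵥ v)).re) := by simp
        _ ≤ D * (star v ⬝ᵥ (G *ᵥ v)).re := by
            rw [hD]
            have h2 : 0 ≤ K * (star v ⬝ᵥ (G *ᵥ v)).re := by positivity
            have h3 : (n : ℝ) ≤ L := by exact_mod_cast hnL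
            nlinarith
  refine ⟨?_, Finset.univ.map ⟨f, hf⟩, by simp, ?_⟩
  · apply PosDef.of_dotProduct_mulVec_pos hG
    intro v hv
    have hn : n ≠ 0 := by
      rintro rfl
      exact hv (Subsingleton.elim _ _)
    have h1 := hnn v hn
    have him : (star v ⬝ᵥ (G *ᵥ v)).im = 0 := hG.im_star_dotProduct_mulVec_self v
    rw [Complex.lt_def]
    refine ⟨?_, by rw [him]; rfl⟩
    rw [Complex.zero_re]
    refine lt_of_le_of_ne h1 ?_
    intro h2
    have h3 := hcmp v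
    rw [← h2, hTf, Complex.ofReal_re] at h3
    have h4 : ∑ i, ‖(T *ᵥ v) i‖ ^ 2 ≤ 0 := by
      rwa [inv_mul_le_iff₀ hD0, mul_zero] at h3
    have h5 : ∑ i, ‖(T *ᵥ v) i‖ ^ 2 = 0 :=
      le_antisymm h4 (Finset.sum_nonneg fun _ _ => by positivity)
    have h8 : star (T *ᵥ v) ⬝ᵥ (T *ᵥ v) = 0 := by
      rw [hTf, h5, Complex.ofReal_zero]
    have h9 : T *ᵥ v = 0 := dotProduct_star_self_eq_zero.mp h8
    have h7 : T.det = 0 := Matrix.exists_mulVec_eq_zero_iff.mp ⟨v, hv, h9⟩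
    rw [Matrix.det_mul, h7, mul_zero] at hTT
    have h10 : p = 0 := by exact_mod_cast hTT.symm
    exact hp0.ne' h10
  · have h1 := de2_compare G T hG p hTT hp0 D⁻¹ (by positivity) hcmp
    rw [Finset.prod_map]
    show ∏ i, w (f i) ≤ _
    rw [inv_pow, inv_mul_le_iff₀ (by positivity)] at h1
    exact hp1.trans h1

end Pool.Agent.EVF.H10
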