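import Pool.Agent.EVF.StmtsR

/-!
# SHB (squad EVF): the shape of a value with a small radical
-/

namespace Pool.Agent.EVF.H10

open Helper5Frey (partRad)
open Pool.Agent.EVF

/-- the primes of `m` prime to `K` -/
def offK (K m : ℕ) : Finset ℕ := m.primeFactors.filter (fun p => ¬ p ∣ K)

theorem mem_offK {K m p : ℕ} (h : p ∈ offK K m) :
    p.Prime ∧ p ∣ m ∧ ¬ p ∣ K := by
  have h1 := Finset.mem_filter.1 h
  exact ⟨Nat.prime_of_mem_primeFactors h1.1, Nat.dvd_of_mem_primeFactors h1.1, h1.2⟩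

theorem partRad_eq (K m : ℕ) : partRad K m = ∏ p ∈ offK K m, p := rfl

theorem split_off {K m : ℕ} (hm : m ≠ 0) :
    m = kPart K m * ∏ p ∈ offK K m, p ^ m.factorization p := by
  have h1 : (∏ p ∈ m.primeFactors.filter (fun p => p ∣ K), p ^ m.factorization p) *
      (∏ p ∈ m.primeFactors.filter (fun p => ¬ p ∣ K), p ^ m.factorization p) =
      ∏ p ∈ m.primeFactors, p ^ m.factorization p :=
    Finset.prod_filter_mul_prod_filter_not _ _ _
  have h2 : ∏ p ∈ m.primeFactors, p ^ m.factorization p = m := by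
    have := Nat.prod_factorization_pow_eq_self (n := m) hm
    rw [Finsupp.prod, Nat.support_factorization] at this
    exact this
  rw [h2] at h1
  exact h1.symm

/-- the square divisor made of a set of primes -/
theorem sq_dvd {m : ℕ} (hm : m ≠ 0) (S : Finset ℕ) (hS : S ⊆ m.primeFactors) :
    (∏ p ∈ S, p ^ (m.factorization p / 2)) ^ 2 ∣ m := by
  have h3 : (∏ p ∈ S, p ^ (m.factorization p / 2)) ^ 2 =
      ∏ p ∈ S, p ^ (m.factorization p / 2 * 2) := by
    rw [← Finset.prod_pow]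
    refine Finset.prod_congr rfl fun p _ => ?_
    rw [← pow_mul]
  have h4 : (∏ p ∈ S, p ^ (m.factorization p / 2)) ^ 2 ∣ ∏ p ∈ S, p ^ m.factorization p := by
    rw [h3]
    refine Finset.prod_dvd_prod_of_dvd _ _ fun p _ => pow_dvd_pow p (Nat.div_mul_le_self _ _)
  have h5 : (∏ p ∈ S, p ^ m.factorization p) ∣ ∏ p ∈ m.primeFactors, p ^ m.factorization p :=
    Finset.prod_dvd_prod_of_subset _ _ _ hS
  have h6 : ∏ p ∈ m.primeFactors, p ^ m.factorization p = m := by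
    have := Nat.prod_factorization_pow_eq_self (n := m) hm
    rw [Finsupp.prod, Nat.support_factorization] at this
    exact this
  rw [h6] at h5
  exact h4.trans h5

theorem prod_le_sq_mul (m : ℕ) (S : Finset ℕ) (hS : ∀ p ∈ S, p.Prime) :
    ∏ p ∈ S, p ^ m.factorization p ≤
      (∏ p ∈ S, p ^ (m.factorization p / 2)) ^ 2 * ∏ p ∈ S, p := by
  have h3 : (∏ p ∈ S, p ^ (m.factorization p / 2)) ^ 2 =
      ∏ p ∈ S, p ^ (m.factorization p / 2 * 2) := by
    rw [← Finset.prod_pow]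
    refine Finset.prod_congr rfl fun p _ => ?_
    rw [← pow_mul]
  rw [h3, ← Finset.prod_mul_distrib]
  refine Finset.prod_le_prod' fun p hp => ?_
  rw [← pow_succ]
  exact Nat.pow_le_pow_right (hS p hp).pos (by omega)

theorem shb : ShbStmt := by
  intro s K ε hs hK hε0 hε1
  refine ⟨2, ?_⟩
  intro H hH m hmub hmlb hkp hsq hrad
  have hHR : (1 : ℝ) < H := by exact_mod_cast (by omega : 1 < H)
  have hHR' : (1 : ℝ) ≤ H := hHR.le
  have hHpos : (0 : ℝ) < H := by linarith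
  set δ : ℝ := ε / 20 with hδ
  have hδ0 : 0 < δ := by rw [hδ]; positivity
  have hεδ : ε = 20 * δ := by rw [hδ]; ring
  have hm0 : m ≠ 0 := by
    rintro rfl
    have h1 : (0 : ℝ) < (H : ℝ) ^ ((s : ℝ) - δ) := Real.rpow_pos_of_pos hHpos _
    push_cast at hmlb
    linarith
  have hK0 : K ≠ 0 := by omega
  set A := offK K m with hA
  have hAsub : A ⊆ m.primeFactors := Finset.filter_subset _ _
  set L := A.filter (fun p => 2 ≤ m.factorization p ∧ (H : ℝ) ^ (2 - δ) < (p : ℝ)) with hL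
  have hLA : L ⊆ A := Finset.filter_subset _ _
  set S := A \ L with hS
  have hSA : S ⊆ A := Finset.sdiff_subset
  set T : ℕ := ∏ p ∈ S, p ^ (m.factorization p / 2) with hT
  have hT2 : T ^ 2 ∣ m := sq_dvd hm0 S (hSA.trans hAsub)
  have hTK : Nat.Coprime T K := by
    rw [hT]
    refine Nat.Coprime.prod_left fun p hp => ?_
    have h1 := mem_offK (hSA hp)
    exact Nat.Coprime.pow_left _ (h1.1.coprime_iff_not_dvd.2 h1.2.2)
  -- primes of `T` are small
  have hTp : ∀ p : ℕ, p.Prime → p ∣ T → (p : ℝ) ≤ (H : ℝ) ^ δ := by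
    intro p hp hpT
    by_contra hcon
    push Not at hcon
    obtain ⟨r, hr, hpr⟩ := (hp.prime.dvd_finsetProd_iff _).1 hpT
    have hrA := mem_offK (hSA hr)
    have hpr' : p ∣ r := hp.dvd_of_dvd_pow hpr
    have hEq : p = r := (Nat.prime_dvd_prime_iff_eq hp hrA.1).1 hpr'
    subst hEq
    have h2 : 2 ≤ m.factorization p := by
      by_contra h
      have h3 : m.factorization p / 2 = 0 := by omega
      rw [h3, pow_zero] at hpr
      exact hp.one_lt.ne' (Nat.dvd_one.1 hpr)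
    have h4 : ¬ (H : ℝ) ^ (2 - δ) < (p : ℝ) := by
      intro h5
      have h6 : p ∈ L := Finset.mem_filter.2 ⟨hSA hr, h2, h5⟩
      exact (Finset.mem_sdiff.1 hr).2 h6
    push Not at h4
    have hp2 : p ^ 2 ∣ m := (pow_dvd_pow_of_dvd hpT 2).trans hT2
    exact hsq p hcon h4 (hp.coprime_iff_not_dvd.2 hrA.2.2) hp2
  have hTH : (T : ℝ) ≤ (H : ℝ) ^ δ := by
    by_contra hcon
    push Not at hcon
    set Z : ℕ := ⌊(H : ℝ) ^ δ⌋₊ with hZ
    have hHδ1 : (1 : ℝ) ≤ (H : ℝ) ^ δ := Real.one_le_rpow hHR' hδ0.le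
    have hHδ0 : (0 : ℝ) ≤ (H : ℝ) ^ δ := by linarith
    have hZ1 : 1 ≤ Z := Nat.le_floor (by exact_mod_cast hHδ1)
    have hZT : Z < T := (Nat.floor_lt hHδ0).2 hcon
    obtain ⟨t, ht1, ht2, ht3⟩ := Pool.Agent.RAD.H41.exists_dvd_between Z hZ1 T hZT
      (fun p hp hpT => Nat.le_floor (hTp p hp hpT))
    have ht2' : (H : ℝ) ^ δ < t := (Nat.floor_lt hHδ0).1 ht2
    have hZle : (Z : ℝ) ≤ (H : ℝ) ^ δ := Nat.floor_le hHδ0
    refine hsq t ht2' ?_ (Nat.Coprime.coprime_dvd_left ht1 hTK)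
      ((pow_dvd_pow_of_dvd ht1 2).trans hT2)
    calc (t : ℝ) ≤ (Z : ℝ) ^ 2 := by exact_mod_cast ht3
      _ ≤ ((H : ℝ) ^ δ) ^ 2 := by gcongr
      _ = (H : ℝ) ^ (2 * δ) := by
          rw [← Real.rpow_natCast, ← Real.rpow_mul hHpos.le]
          congr 1
          push_cast
          ring
      _ ≤ (H : ℝ) ^ (2 - δ) := Real.rpow_le_rpow_of_exponent_le hHR' (by linarith)
  have hT2H : ((T : ℝ)) ^ 2 ≤ (H : ℝ) ^ (2 * δ) := by
    calc (T : ℝ) ^ 2 ≤ ((H : ℝ) ^ δ) ^ 2 := by gcongr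
      _ = (H : ℝ) ^ (2 * δ) := by
          rw [← Real.rpow_natCast, ← Real.rpow_mul hHpos.le]
          congr 1
          push_cast
          ring
  have hSle : ∏ p ∈ S, p ^ m.factorization p ≤ T ^ 2 * ∏ p ∈ S, p :=
    prod_le_sq_mul m S (fun p hp => (mem_offK (hSA hp)).1)
  have hsplit : m = kPart K m * ∏ p ∈ A, p ^ m.factorization p := split_off hm0
  have hradA : partRad K m = ∏ p ∈ A, p := rfl
  have hmin4 : (((min s 4 : ℕ) : ℝ)) ≤ 4 := by exact_mod_cast min_le_right s 4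
  have hmins : (((min s 4 : ℕ) : ℝ)) ≤ s := by exact_mod_cast min_le_left s 4
  have hApos : ∀ p ∈ A, 1 ≤ p := fun p hp => (mem_offK hp).1.pos
  by_cases hLe : L = ∅
  · exfalso
    have hSAe : S = A := by rw [hS, hLe, Finset.sdiff_empty]
    rw [hSAe] at hSle
    have h1 : ((∏ p ∈ A, p ^ m.factorization p : ℕ) : ℝ) ≤
        (T : ℝ) ^ 2 * ((∏ p ∈ A, p : ℕ) : ℝ) := by exact_mod_cast hSle
    rw [hradA] at hrad
    have h2 : (m : ℝ) = (kPart K m : ℝ) * ((∏ p ∈ A, p ^ m.factorization p : ℕ) : ℝ) := by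
      exact_mod_cast hsplit
    have h3 : (m : ℝ) ≤ (H : ℝ) ^ δ * ((H : ℝ) ^ (2 * δ) *
        (H : ℝ) ^ (((min s 4 : ℕ) : ℝ) - ε)) := by
      rw [h2]
      refine mul_le_mul hkp (h1.trans ?_) (Nat.cast_nonneg _) (by positivity)
      exact mul_le_mul hT2H hrad (Nat.cast_nonneg _) (by positivity)
    rw [← Real.rpow_add hHpos, ← Real.rpow_add hHpos] at h3
    have h4 : (H : ℝ) ^ (δ + (2 * δ + (((min s 4 : ℕ) : ℝ) - ε))) < (H : ℝ) ^ ((s : ℝ) - δ) :=
      Real.rpow_lt_rpow_of_exponent_lt hHR (by linarith)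
    linarith
  · obtain ⟨q, hqL⟩ := Finset.nonempty_iff_ne_empty.2 hLe
    have hq := Finset.mem_filter.1 hqL
    have hqA := mem_offK hq.1
    have hqH : (H : ℝ) ^ (2 - δ) < (q : ℝ) := hq.2.2
    have hLq : L = {q} := by
      rw [Finset.eq_singleton_iff_unique_mem]
      refine ⟨hqL, ?_⟩
      intro p hp
      by_contra hpq
      have hpp := Finset.mem_filter.1 hp
      have hsub : ({p, q} : Finset ℕ) ⊆ A := by
        intro x hx
        rw [Finset.mem_insert, Finset.mem_singleton] at hx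
        rcases hx with rfl | rfl
        · exact hLA hp
        · exact hLA hqL
      have hle : p * q ≤ ∏ x ∈ A, x := by
        have h1 : ∏ x ∈ ({p, q} : Finset ℕ), x = p * q := Finset.prod_pair hpq
        rw [← h1]
        exact Finset.prod_le_prod_of_subset_of_one_le' hsub (fun i hi _ => hApos i hi)
      have hX0 : (0 : ℝ) ≤ (H : ℝ) ^ (2 - δ) := by positivity
      have h2 : (H : ℝ) ^ (2 - δ) * (H : ℝ) ^ (2 - δ) < (p : ℝ) * q :=
        mul_lt_mul'' hpp.2.2 hqH hX0 hX0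
      have h3 : (p : ℝ) * q ≤ (partRad K m : ℝ) := by
        rw [hradA]
        exact_mod_cast hle
      rw [← Real.rpow_add hHpos] at h2
      have h4 : (H : ℝ) ^ (((min s 4 : ℕ) : ℝ) - ε) ≤ (H : ℝ) ^ (2 - δ + (2 - δ)) :=
        Real.rpow_le_rpow_of_exponent_le hHR' (by linarith)
      linarith
    set w : ℕ := ∏ p ∈ S, p ^ m.factorization p with hw
    have hSe : S = A \ {q} := by rw [hS, hLq]
    have hprodA : ∀ f : ℕ → ℕ, ∏ p ∈ A, f p = (∏ p ∈ S, f p) * f q := by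
      intro f
      have h1 := Finset.prod_sdiff (f := f) hLA
      rw [← h1, ← hS, hLq, Finset.prod_singleton]
    refine ⟨w, q, m.factorization q, ?_, ?_, ?_, hqH, hq.2.1, ?_, ?_⟩
    · rw [hw]
      exact Nat.one_le_iff_ne_zero.2 (Finset.prod_ne_zero_iff.2 fun p hp =>
        pow_ne_zero _ (mem_offK (hSA hp)).1.ne_zero)
    · rw [hw]
      refine Nat.Coprime.prod_left fun p hp => ?_
      have h1 := mem_offK (hSA hp)
      exact Nat.Coprime.pow_left _ (h1.1.coprime_iff_not_dvd.2 h1.2.2)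
    · have h1 : (w : ℝ) ≤ (T : ℝ) ^ 2 * ((∏ p ∈ S, p : ℕ) : ℝ) := by exact_mod_cast hSle
      have h2 : ((partRad K m : ℕ) : ℝ) = ((∏ p ∈ S, p : ℕ) : ℝ) * (q : ℝ) := by
        rw [hradA, hprodA (fun p => p)]
        push_cast
        ring
      have hq0 : (0 : ℝ) < q := by exact_mod_cast hqA.1.pos
      have h3 : (w : ℝ) * q ≤ (H : ℝ) ^ (2 * δ) * (H : ℝ) ^ (((min s 4 : ℕ) : ℝ) - ε) := by
        calc (w : ℝ) * q ≤ ((T : ℝ) ^ 2 * ((∏ p ∈ S, p : ℕ) : ℝ)) * q := by gcongr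
          _ = (T : ℝ) ^ 2 * ((partRad K m : ℕ) : ℝ) := by rw [h2]; ring
          _ ≤ _ := mul_le_mul hT2H hrad (Nat.cast_nonneg _) (by positivity)
      have h4 : (H : ℝ) ^ (2 * δ) * (H : ℝ) ^ (((min s 4 : ℕ) : ℝ) - ε) ≤
          (H : ℝ) ^ (2 - ε / 2) * (H : ℝ) ^ (2 - δ) := by
        rw [← Real.rpow_add hHpos, ← Real.rpow_add hHpos]
        exact Real.rpow_le_rpow_of_exponent_le hHR' (by linarith)
      have h5 : (H : ℝ) ^ (2 - ε / 2) * (H : ℝ) ^ (2 - δ) ≤ (H : ℝ) ^ (2 - ε / 2) * q := by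
        gcongr
      exact le_of_mul_le_mul_right ((h3.trans h4).trans h5) hq0
    · -- the exponent
      have h1 : q ^ m.factorization q ∣ m := Nat.ordProj_dvd m q
      have h2 : q ^ m.factorization q ≤ m := Nat.le_of_dvd (Nat.pos_of_ne_zero hm0) h1
      have h3 : (H : ℝ) < q := by
        refine lt_of_le_of_lt ?_ hqH
        calc (H : ℝ) = (H : ℝ) ^ (1 : ℝ) := (Real.rpow_one _).symm
          _ ≤ (H : ℝ) ^ (2 - δ) := Real.rpow_le_rpow_of_exponent_le hHR' (by linarith)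
      have h4 : (H : ℝ) ^ m.factorization q ≤ (H : ℝ) ^ (s + 1) := by
        calc (H : ℝ) ^ m.factorization q ≤ (q : ℝ) ^ m.factorization q := by gcongr
          _ ≤ (m : ℝ) := by exact_mod_cast h2
          _ ≤ _ := hmub
      exact (pow_le_pow_iff_right₀ hHR).1 h4
    · calc m = kPart K m * ∏ p ∈ A, p ^ m.factorization p := hsplit
        _ = kPart K m * (w * q ^ m.factorization q) := by
            rw [hprodA (fun p => p ^ m.factorization p)]
        _ = kPart K m * w * q ^ m.factorization q := by ring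

end Pool.Agent.EVF.H10
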