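import Pool.Agent.EVF.StmtsG

/-!
# WSD (squad EVF, part G): size of determinant and adjugate
-/

namespace Pool.Agent.EVF.H10

open MvPolynomial Matrix
open Pool.Agent.EVF

section
variable {α β : ℕ} {b : ℝ}

theorem wsz_nonneg (hb : 0 ≤ b) (G : MvPolynomial (Fin 2) ℂ) : 0 ≤ wsz α β b G := by
  unfold wsz
  exact Finset.sum_nonneg fun e _ => mul_nonneg (norm_nonneg _) (pow_nonneg hb _)

theorem wsz_sum (h : WszStmt) (hb : 0 ≤ b) {ι : Type*} (S : Finset ι)
    (G : ι → MvPolynomial (Fin 2) ℂ) :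
    wsz α β b (∑ i ∈ S, G i) ≤ ∑ i ∈ S, wsz α β b (G i) := by
  classical
  obtain ⟨h1, -, -, h0, -⟩ := h α β b hb
  induction S using Finset.induction_on with
  | empty => simp [h0]
  | insert a S ha ih =>
    rw [Finset.sum_insert ha, Finset.sum_insert ha]
    exact (h1 _ _).trans (add_le_add le_rfl ih)

theorem wsz_prod (h : WszStmt) (hb : 0 ≤ b) {ι : Type*} (S : Finset ι)
    (G : ι → MvPolynomial (Fin 2) ℂ) :
    wsz α β b (∏ i ∈ S, G i) ≤ ∏ i ∈ S, wsz α β b (G i) := by
  classical
  obtain ⟨-, h2, -, -, h1, -⟩ := h α β b hb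
  induction S using Finset.induction_on with
  | empty => simp [h1]
  | insert a S ha ih =>
    rw [Finset.prod_insert ha, Finset.prod_insert ha]
    exact (h2 _ _).trans (mul_le_mul_of_nonneg_left ih (wsz_nonneg hb _))

theorem wsz_sign (h : WszStmt) (hb : 0 ≤ b) (u : ℤˣ) (G : MvPolynomial (Fin 2) ℂ) :
    wsz α β b (u • G) = wsz α β b G := by
  obtain ⟨-, -, h3, -⟩ := h α β b hb
  rcases Int.units_eq_one_or u with rfl | rfl
  · rw [one_smul]
  · rw [Units.neg_smul, one_smul, h3]

theorem wsz_det (h : WszStmt) (hb : 0 ≤ b) {r : ℕ} (B : CMat r) (t : Fin r → Fin r → ℝ)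
    (ht : ∀ k l, wsz α β b (B k l) ≤ t k l) (X Y : ℝ) (hX : 0 ≤ X)
    (hσ : ∀ σ : Equiv.Perm (Fin r), (∏ k, t (σ k) k) * X ≤ Y) :
    wsz α β b B.det * X ≤ (r.factorial : ℝ) * Y := by
  classical
  rw [Matrix.det_apply]
  have h1 : wsz α β b (∑ σ : Equiv.Perm (Fin r), Equiv.Perm.sign σ • ∏ i, B (σ i) i) ≤
      ∑ σ : Equiv.Perm (Fin r), ∏ k, t (σ k) k := by
    refine (wsz_sum h hb _ _).trans (Finset.sum_le_sum fun σ _ => ?_)
    rw [wsz_sign h hb]
    refine (wsz_prod h hb _ _).trans ?_
    exact Finset.prod_le_prod (fun k _ => wsz_nonneg hb _) fun k _ => ht _ _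
  calc _ ≤ (∑ σ : Equiv.Perm (Fin r), ∏ k, t (σ k) k) * X := mul_le_mul_of_nonneg_right h1 hX
    _ = ∑ σ : Equiv.Perm (Fin r), (∏ k, t (σ k) k) * X := Finset.sum_mul _ _ _
    _ ≤ ∑ _σ : Equiv.Perm (Fin r), Y := Finset.sum_le_sum fun σ _ => hσ σ
    _ = (r.factorial : ℝ) * Y := by
        rw [Finset.sum_const, Finset.card_univ, Fintype.card_perm, Fintype.card_fin,
          nsmul_eq_mul]

end

theorem prod_full {r : ℕ} (s : Shape r) (b L : ℝ) (σ : Equiv.Perm (Fin r)) :
    ∏ k, (L * b ^ (s.m (σ k) + s.m k)) = L ^ r * b ^ (2 * s.wt) := by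
  rw [Finset.prod_mul_distrib, Finset.prod_const, Finset.card_univ, Fintype.card_fin,
    Finset.prod_pow_eq_pow_sum, Finset.sum_add_distrib, Equiv.sum_comp σ s.m]
  congr 2
  unfold Shape.wt
  ring

theorem wsd (h : WszStmt) : WsdStmt := by
  classical
  intro r s hs
  set K : ℝ := (((2 * s.deg + 1) ^ 2 : ℕ) : ℝ) with hK
  have hK1 : 1 ≤ K := by
    rw [hK]
    exact_mod_cast Nat.one_le_pow _ _ (by omega)
  have hf1 : (1 : ℝ) ≤ (r.factorial : ℝ) := by
    exact_mod_cast Nat.one_le_iff_ne_zero.2 (Nat.factorial_ne_zero r)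
  have hKr : 1 ≤ K ^ r := one_le_pow₀ hK1
  refine ⟨(r.factorial : ℝ) * K ^ r + K, ?_, ?_⟩
  · have : 0 ≤ (r.factorial : ℝ) * K ^ r := by positivity
    linarith
  intro A b Q θ hA hS
  have hb0 : 0 ≤ b := by linarith [hS.hb]
  have hQ1 := hS.hQ
  have hQ0 : 0 ≤ Q := by linarith
  have hKQ : 1 ≤ K * Q := by nlinarith
  have hKQ0 : 0 ≤ K * Q := by linarith
  -- the entries
  have hent : ∀ i j, wsz s.α s.β b (A i j) ≤ K * Q * b ^ (s.m i + s.m j) := by
    intro i j
    have hcard : ((A i j).support.card : ℝ) ≤ K := by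
      have h1 : (A i j).support ⊆ ((Finset.range (2 * s.deg + 1) ×ˢ
          Finset.range (2 * s.deg + 1)).image
            (fun p : ℕ × ℕ => (Finsupp.single 0 p.1 + Finsupp.single 1 p.2 : Fin 2 →₀ ℕ))) := by
        intro e he
        have h2 := hA.deg i j e he
        have h3 : s.D i ≤ s.deg := Finset.single_le_sum (f := s.D) (fun _ _ => Nat.zero_le _)
          (Finset.mem_univ i)
        have h4 : s.D j ≤ s.deg := Finset.single_le_sum (f := s.D) (fun _ _ => Nat.zero_le _)
          (Finset.mem_univ j)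
        have h5 : e 0 ≤ s.u * e 0 := Nat.le_mul_of_pos_left _ hs.u_pos
        have h6 : e 1 ≤ s.v * e 1 := Nat.le_mul_of_pos_left _ hs.v_pos
        rw [Finset.mem_image]
        refine ⟨(e 0, e 1), ?_, ?_⟩
        · rw [Finset.mem_product, Finset.mem_range, Finset.mem_range]
          constructor
          · show e 0 < _
            omega
          · show e 1 < _
            omega
        · ext a
          fin_cases a <;> simp
      have h2 : (A i j).support.card ≤ (2 * s.deg + 1) ^ 2 := by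
        refine (Finset.card_le_card h1).trans (Finset.card_image_le.trans ?_)
        rw [Finset.card_product, Finset.card_range, sq]
      rw [hK]
      exact_mod_cast h2
    unfold wsz
    calc ∑ e ∈ (A i j).support, ‖coeff e (A i j)‖ * b ^ (s.α * e 0 + s.β * e 1)
        ≤ ∑ _e ∈ (A i j).support, Q * b ^ (s.m i + s.m j) :=
          Finset.sum_le_sum fun e _ => hS.coef i j e
      _ = ((A i j).support.card : ℝ) * (Q * b ^ (s.m i + s.m j)) := by
          rw [Finset.sum_const, nsmul_eq_mul]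
      _ ≤ K * (Q * b ^ (s.m i + s.m j)) := by
          have : 0 ≤ Q * b ^ (s.m i + s.m j) := by positivity
          exact mul_le_mul_of_nonneg_right hcard this
      _ = K * Q * b ^ (s.m i + s.m j) := by ring
  have hY : (r.factorial : ℝ) * ((K * Q) ^ r * b ^ (2 * s.wt)) ≤
      ((r.factorial : ℝ) * K ^ r + K) * Q ^ r * b ^ (2 * s.wt) := by
    have h1 : (r.factorial : ℝ) * ((K * Q) ^ r * b ^ (2 * s.wt)) =
        (r.factorial : ℝ) * K ^ r * Q ^ r * b ^ (2 * s.wt) := by
      rw [mul_pow]
      ring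
    rw [h1]
    have h2 : (r.factorial : ℝ) * K ^ r ≤ (r.factorial : ℝ) * K ^ r + K := by linarith
    gcongr
  refine ⟨fun i j => ?_, ?_, fun i j => ?_⟩
  · refine (hent i j).trans ?_
    have h2 : K ≤ (r.factorial : ℝ) * K ^ r + K := by
      have : 0 ≤ (r.factorial : ℝ) * K ^ r := by positivity
      linarith
    gcongr
  · have h1 := wsz_det (α := s.α) (β := s.β) h hb0 A
      (fun k l => K * Q * b ^ (s.m k + s.m l)) hent 1 ((K * Q) ^ r * b ^ (2 * s.wt)) zero_le_one
      (fun σ => by rw [mul_one, prod_full])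
    rw [mul_one] at h1
    exact h1.trans hY
  · rw [adjugate_apply]
    obtain ⟨-, -, -, w0, w1, -⟩ := h s.α s.β b hb0
    refine (wsz_det (α := s.α) (β := s.β) h hb0 (A.updateRow j (Pi.single i 1))
      (fun k l => if k = j then (if l = i then 1 else 0) else K * Q * b ^ (s.m k + s.m l))
      ?_ (b ^ (s.m i + s.m j)) ((K * Q) ^ r * b ^ (2 * s.wt)) (by positivity) ?_).trans hY
    · intro k l
      by_cases hk : k = j
      · subst hk
        rw [updateRow_self, if_pos rfl]
        by_cases hl : l = i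
        · subst hl
          rw [Pi.single_eq_same, if_pos rfl, w1]
        · rw [Pi.single_eq_of_ne hl, if_neg hl, w0]
      · rw [updateRow_ne hk, if_neg hk]
        exact hent k l
    · intro σ
      by_cases hσ : σ i = j
      · rw [← Finset.mul_prod_erase Finset.univ _ (Finset.mem_univ i), if_pos hσ, if_pos rfl,
          one_mul]
        have h1 : ∏ k ∈ Finset.univ.erase i, (if σ k = j then (if k = i then (1 : ℝ) else 0)
            else K * Q * b ^ (s.m (σ k) + s.m k)) =
            ∏ k ∈ Finset.univ.erase i, (K * Q * b ^ (s.m (σ k) + s.m k)) := by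
          refine Finset.prod_congr rfl fun k hk => ?_
          rw [if_neg]
          intro h2
          exact (Finset.mem_erase.1 hk).1 (σ.injective (h2.trans hσ.symm))
        rw [h1, ← prod_full s b (K * Q) σ, ← Finset.mul_prod_erase Finset.univ
          (fun k => K * Q * b ^ (s.m (σ k) + s.m k)) (Finset.mem_univ i), mul_comm, hσ,
          add_comm (s.m i)]
        have h3 : 0 ≤ ∏ k ∈ Finset.univ.erase i, (K * Q * b ^ (s.m (σ k) + s.m k)) :=
          Finset.prod_nonneg fun k _ => by positivity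
        refine mul_le_mul_of_nonneg_right ?_ h3
        have h4 : 0 ≤ b ^ (s.m j + s.m i) := by positivity
        nlinarith
      · have h1 : ∏ k, (if σ k = j then (if k = i then (1 : ℝ) else 0)
            else K * Q * b ^ (s.m (σ k) + s.m k)) = 0 := by
          apply Finset.prod_eq_zero (Finset.mem_univ (σ.symm j))
          rw [Equiv.apply_symm_apply, if_pos rfl, if_neg]
          intro h2
          apply hσ
          rw [← h2, Equiv.apply_symm_apply]
        rw [h1, zero_mul]
        positivity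

end Pool.Agent.EVF.H10
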